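import Pool.Agent.H93.GT.Targets

/-!
# The dichotomy for the synthesis property: module LNS (residues of the lines)
-/

namespace Pool.Agent.H37.GT

open Finset Pool.Agent.H85.SC Pool.Agent.H93.GT
open Pool.Agent.H93.ET (sg jj iE iA)

theorem ind_pos {P : ℤ → Prop} {z : ℤ} (h : P z) : ind P z = 1 := by
  unfold ind
  exact if_pos h

theorem ind_neg {P : ℤ → Prop} {z : ℤ} (h : ¬ P z) : ind P z = 0 := by
  unfold ind
  exact if_neg h

theorem Mo_pos (n : ℕ) : (0 : ℤ) < (Mo n : ℤ) := by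
  unfold Mo
  positivity

theorem Mo_eq (n : ℕ) : (Mo n : ℤ) = 4 ^ (Nat.size n + 1) := by
  unfold Mo
  push_cast
  rfl

theorem sum_ind {M w : ℤ} (hM : 0 < M) {P : ℤ → Prop} {Q : ℕ → ℤ → Prop} {z : ℤ}
    (hP : P z ↔ M ∣ w) (hQ : ∀ e : ℕ, Q e z ↔ 6 * M ∣ w - M * e) :
    ind P z = ∑ e ∈ range 6, ind (Q e) z := by
  by_cases h : M ∣ w
  · rw [ind_pos (hP.2 h)]
    obtain ⟨q, hq⟩ := h
    have hQ' : ∀ e : ℕ, Q e z ↔ (6 : ℤ) ∣ q - e := by
      intro e
      rw [hQ e, hq, ← mul_sub, mul_comm 6 M]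
      exact mul_dvd_mul_iff_left hM.ne'
    have h0 : 0 ≤ q % 6 := Int.emod_nonneg _ (by norm_num)
    have h6 : q % 6 < 6 := Int.emod_lt_of_pos _ (by norm_num)
    rw [Finset.sum_eq_single (q % 6).toNat]
    · refine (ind_pos ((hQ' _).2 ?_)).symm
      omega
    · intro e he hne
      refine ind_neg fun hc => hne ?_
      have h1 := (hQ' e).1 hc
      have h2 := Finset.mem_range.1 he
      omega
    · intro hc
      exact absurd (Finset.mem_range.2 (by omega)) hc
  · rw [ind_neg (fun hc => h (hP.1 hc))]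
    refine (Finset.sum_eq_zero fun e _ => ind_neg fun hc => h ?_).symm
    have h1 : M ∣ w - M * e := (Dvd.intro_left 6 rfl).trans ((hQ e).1 hc)
    have h2 := dvd_add h1 (Dvd.intro (e : ℤ) rfl)
    rwa [sub_add_cancel] at h2

theorem rho_cases (i : ℕ) : rho i = 0 ∨ rho i = 1 := by
  unfold rho
  split_ifs <;> omega

theorem lc_cases (i : ℕ) : lc i = 1 ∨ lc i = 3 := by
  unfold lc
  split_ifs
  · exact Or.inl rfl
  · exact Or.inr rfl

theorem jj_cases (s : Bool) : jj s = 0 ∨ jj s = 1 := by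
  cases s
  · exact Or.inr rfl
  · exact Or.inl rfl

theorem jj_inj {s s' : Bool} (h : jj s = jj s') : s = s' := by
  cases s <;> cases s'
  · rfl
  · exact absurd h (by decide)
  · exact absurd h (by decide)
  · rfl

theorem lr_sub {c : ℤ} {n : ℕ} {e z : ℤ} (h : lr c n e z) :
    (4 : ℤ) ^ (Nat.size n + 1) ∣ z - cc n - c * 4 ^ Nat.size n := by
  unfold lr at h
  rw [← Mo_eq]
  have h1 : (Mo n : ℤ) ∣ z - cc n - c * 4 ^ Nat.size n - Mo n * e :=
    (Dvd.intro_left 6 rfl).trans h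
  have h2 := dvd_add h1 (Dvd.intro e rfl)
  rwa [sub_add_cancel] at h2

theorem lns (h1 : T_CCA) : T_LNS := by
  obtain ⟨_, hcc, _, _, _⟩ := h1
  refine ⟨?_, ?_, ?_, ?_, ?_, ?_, ?_, ?_⟩
  · intro n z
    refine sum_ind (M := Mo n) (w := z - cc n - 4 ^ Nat.size n) (Mo_pos n) ?_ ?_
    · unfold inh
      rw [Mo_eq]
    · intro e
      unfold lr
      rw [one_mul]
  · intro n z
    refine sum_ind (M := Mo n) (w := z - cc n - 3 * 4 ^ Nat.size n) (Mo_pos n) ?_ ?_
    · unfold ing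
      rw [Mo_eq]
    · intro e
      unfold lr
      exact Iff.rfl
  · intro c n e e' z h0 h6 h0' h6' h h'
    unfold lr at h h'
    have h2 : 6 * (Mo n : ℤ) ∣ (Mo n : ℤ) * (e' - e) := by
      have h3 := dvd_sub h h'
      have h4 : z - cc n - c * 4 ^ Nat.size n - Mo n * e -
          (z - cc n - c * 4 ^ Nat.size n - Mo n * e') = (Mo n : ℤ) * (e' - e) := by ring
      rwa [h4] at h3
    rw [mul_comm 6, mul_dvd_mul_iff_left (Mo_pos n).ne'] at h2
    omega
  · intro n e z h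
    unfold inh
    have h2 := lr_sub h
    rwa [one_mul] at h2
  · intro n e z h
    exact lr_sub h
  · intro n i t κ s _
    refine ⟨?_, rho_cases i, lc_cases i⟩
    unfold lr pp
    refine ⟨2 * t + κ, ?_⟩
    ring
  · intro n
    obtain ⟨h0, h4⟩ := hcc n
    refine ⟨h0, fun c hc => ?_⟩
    have hp : (0 : ℤ) < 4 ^ Nat.size n := by positivity
    rw [Mo_eq, pow_succ]
    rcases hc with rfl | rfl
    · constructor <;> linarith
    · constructor <;> linarith
  · intro n i t κ s t' κ' s' hκ hκ' h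
    unfold pp at h
    have h2 : (Mo n : ℤ) * (12 * t + 6 * κ + 2 * rho i + jj s) =
        Mo n * (12 * t' + 6 * κ' + 2 * rho i + jj s') := by linarith
    have h3 := mul_left_cancel₀ (Mo_pos n).ne' h2
    have hj := jj_cases s
    have hj' := jj_cases s'
    refine ⟨by omega, by omega, jj_inj (by omega)⟩

end Pool.Agent.H37.GT
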