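import Pool.Agent.H93.GT.Targets
import Pool.Agent.H27.SC.Edge
import Pool.Agent.H37.GT.LNS

/-!
# The dichotomy for the synthesis property: module GSM (the weights sum to zero on the classes)
-/

set_option autoImplicit false

namespace Pool.Agent.H37.GT

open Finset Pool.Agent.H87.Synth Pool.Agent.H85.SC Pool.Agent.H93.GT
open Pool.Agent.H93.ET (sg jj iE iA)
open Pool.Agent.H27.SC (lg_pow lg_eq lg_bounds lg_top lg_pred lvl_pow lvl_top lvl_pred edge_cases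
  valid_stay valid_top valid_pred)

lemma iA_mem (x : ℝ) : iA x = 0 ∨ iA x = 1 := by
  unfold iA; split_ifs <;> simp

lemma iE_mem (x : ℝ) : iE x = 0 ∨ iE x = 1 := by
  unfold iE; split_ifs <;> simp

lemma eq_iA_or_iE (x : ℝ) (i : ℤ) (h : i = 0 ∨ i = 1) : i = iA x ∨ i = iE x := by
  unfold iE iA; split_ifs <;> omega

lemma valA (x : ℝ) (s : ℂ) : (1 - 2 * ((iA x : ℤ) : ℂ)) * s * (x : ℂ) = -s * ((|x| : ℝ) : ℂ) := by
  unfold iA
  split_ifs with h
  · rw [abs_of_pos h]; push_cast; ring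
  · rw [abs_of_nonpos (not_lt.mp h)]; push_cast; ring

lemma valE (x : ℝ) (s : ℂ) : (1 - 2 * ((iE x : ℤ) : ℂ)) * s * (x : ℂ) = s * ((|x| : ℝ) : ℂ) := by
  unfold iE
  split_ifs with h
  · rw [abs_of_pos h]; push_cast; ring
  · rw [abs_of_nonpos (not_lt.mp h)]; push_cast; ring

lemma sg_pm (s : Bool) : sg s = 1 ∨ sg s = -1 := by
  cases s <;> simp [sg]

theorem pm_ne {x y : ℤ} (hx : x = 1 ∨ x = -1) (hy : y = 1 ∨ y = -1) (h : x ≠ y) :
    x * y = -1 := by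
  rcases hx with rfl | rfl <;> rcases hy with rfl | rfl <;> simp_all

theorem pm_sq {x : ℤ} (hx : x = 1 ∨ x = -1) : x * x = 1 := by
  rcases hx with rfl | rfl <;> norm_num

section

variable {d : ℕ → ℝ} (P : Pos d)

theorem EM_stay (n b : ℕ) (s : ℤ) (h : n < 2 ^ b) :
    P.EM n (2 ^ (b + 1)) s = P.FS n (2 ^ b) s := by
  unfold Pos.EM
  rw [lg_pow, if_pos rfl, Nat.add_sub_cancel, if_pos h]

theorem EM_top (n b : ℕ) (s : ℤ) :
    P.EM (n + 2 ^ b) (2 ^ (b + 1)) s = P.FD n (2 ^ (b + 1) - 1) s := by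
  unfold Pos.EM
  rw [lg_pow, if_pos rfl, Nat.add_sub_cancel, if_neg (by omega), Nat.add_sub_cancel]

theorem EM_next (n i : ℕ) (s : ℤ) (h : i ≠ 2 ^ lg i) : P.EM n i s = P.FD n (i - 1) s := by
  unfold Pos.EM
  rw [if_neg h]

theorem cls_blk (S : Set ℕ) (n i m : ℕ) (s : Bool)
    (h : n ∈ S ∧ Valid n i ∧ i ≠ 1 ∧ m < P.N n i) :
    P.cls S (GC.blk n i m s) =
      P.AB n i m s ∪ (if m = 0 then P.EM n i (sg s) else P.EB n i (m - 1) s) := if_pos h

theorem cls_blk0 (S : Set ℕ) (n i m : ℕ) (s : Bool)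
    (h : ¬ (n ∈ S ∧ Valid n i ∧ i ≠ 1 ∧ m < P.N n i)) :
    P.cls S (GC.blk n i m s) = ∅ := if_neg h

theorem cls_sta (S : Set ℕ) (n i : ℕ) (s : Bool) (h : n ∈ S ∧ Valid n i ∧ i ≠ 1) :
    P.cls S (GC.sta n i s) = P.FA n i (sg s) ∪ P.EB n i (P.N n i - 1) s := if_pos h

theorem cls_sta0 (S : Set ℕ) (n i : ℕ) (s : Bool) (h : ¬ (n ∈ S ∧ Valid n i ∧ i ≠ 1)) :
    P.cls S (GC.sta n i s) = ∅ := if_neg h

theorem cls_lst (S : Set ℕ) (n i : ℕ) (h : n ∈ S ∧ Valid n i ∧ i ≠ 2 ^ lg i) :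
    P.cls S (GC.lst n i) = P.FS n i 1 ∪ P.FS n i (-1) := if_pos h

theorem cls_lst0 (S : Set ℕ) (n i : ℕ) (h : ¬ (n ∈ S ∧ Valid n i ∧ i ≠ 2 ^ lg i)) :
    P.cls S (GC.lst n i) = ∅ := if_neg h

theorem cls_ldr (S : Set ℕ) (n i : ℕ)
    (h : n ∈ S ∧ Valid n i ∧ i + 1 = 2 ^ (lg i + 1) ∧ n + 2 ^ lg i ∉ S) :
    P.cls S (GC.ldr n i) = P.FD n i 1 ∪ P.FD n i (-1) := if_pos h

theorem cls_ldr0 (S : Set ℕ) (n i : ℕ)
    (h : ¬ (n ∈ S ∧ Valid n i ∧ i + 1 = 2 ^ (lg i + 1) ∧ n + 2 ^ lg i ∉ S)) :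
    P.cls S (GC.ldr n i) = ∅ := if_neg h

theorem cls_par (S : Set ℕ) (n i : ℕ) (t : ℤ) (s : Bool)
    (h : n ∈ S ∧ Valid n i ∧ i ≠ 1 ∧ P.g n i t ≠ 0 ∧ (∀ m, m < P.N n i → t ∉ P.T n i m)) :
    P.cls S (GC.par n i t s) = {pp n i t 0 s, pp n i t 1 s} := if_pos h

theorem cls_par0 (S : Set ℕ) (n i : ℕ) (t : ℤ) (s : Bool)
    (h : ¬ (n ∈ S ∧ Valid n i ∧ i ≠ 1 ∧ P.g n i t ≠ 0 ∧ (∀ m, m < P.N n i → t ∉ P.T n i m))) :
    P.cls S (GC.par n i t s) = ∅ := if_neg h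

variable {P} {S : Set ℕ} {Λ : L1 →L[ℂ] ℂ} (hG : P.GVs S Λ)

theorem sumAbs {n i m : ℕ} (hV : Valid n i) (hi : i ≠ 1) (hm : m < P.N n i) :
    ∑ t ∈ P.T n i m, ((|P.g n i t| : ℝ) : ℂ) = 2 ^ lvl n i := by
  have := (P.hT n i m hV hi hm).2.2
  rw [← Complex.ofReal_sum, this]
  push_cast
  rfl

include hG in
theorem sumAB (h6 : T_LNS) {n i m : ℕ} (hn : n ∈ S) (hV : Valid n i) (hi : i ≠ 1)
    (hm : m < P.N n i) (s : Bool) :
    ∑ z ∈ P.AB n i m s, Λ (ex z) = -((sg s : ℤ) : ℂ) * 2 ^ lvl n i := by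
  unfold Pos.AB
  rw [Finset.sum_image, ← sumAbs hV hi hm, Finset.mul_sum]
  · refine Finset.sum_congr rfl fun t ht => ?_
    have hg := (P.hT n i m hV hi hm).2.1 t ht
    rw [hG.2.1 n i t _ s hn hV hi hg (iA_mem _), valA]
  · intro t _ t' _ he
    exact (h6.2.2.2.2.2.2.2 n i t _ s t' _ s (iA_mem _) (iA_mem _) he).1

include hG in
theorem sumEB (h6 : T_LNS) {n i m : ℕ} (hn : n ∈ S) (hV : Valid n i) (hi : i ≠ 1)
    (hm : m < P.N n i) (s : Bool) :
    ∑ z ∈ P.EB n i m s, Λ (ex z) = ((sg s : ℤ) : ℂ) * 2 ^ lvl n i := by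
  unfold Pos.EB
  rw [Finset.sum_image, ← sumAbs hV hi hm, Finset.mul_sum]
  · refine Finset.sum_congr rfl fun t ht => ?_
    have hg := (P.hT n i m hV hi hm).2.1 t ht
    rw [hG.2.1 n i t _ s hn hV hi hg (iE_mem _), valE]
  · intro t _ t' _ he
    exact (h6.2.2.2.2.2.2.2 n i t _ s t' _ s (iE_mem _) (iE_mem _) he).1

variable (h1 : T_GSG)

include h1 in
theorem mem_FA {n i : ℕ} {s z : ℤ} : z ∈ P.FA n i s ↔
    P.Reg n i z ∧ s1 n i z = s ∧ s2 n i z = s ∧ s3 n i z = s := by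
  unfold Pos.FA
  rw [Finset.mem_filter, (h1 d P).1]

include h1 in
theorem mem_FS {n i : ℕ} {s z : ℤ} : z ∈ P.FS n i s ↔
    P.Reg n i z ∧ s1 n i z = s ∧ s2 n i z = s ∧ s3 n i z = -s := by
  unfold Pos.FS
  rw [Finset.mem_filter, (h1 d P).1]

include h1 in
theorem mem_FD {n i : ℕ} {s z : ℤ} : z ∈ P.FD n i s ↔
    P.Reg n i z ∧ s1 n i z ≠ s2 n i z ∧ s3 n i z = s := by
  unfold Pos.FD
  rw [Finset.mem_filter, (h1 d P).1]

include hG h1 in
theorem val_FA {n i : ℕ} (hn : n ∈ S) (hi : i ≠ 1) {s z : ℤ} (hs : s = 1 ∨ s = -1)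
    (hz : z ∈ P.FA n i s) : Λ (ex z) = -((2 : ℂ) ^ lvl n i / P.cnt n i) * (s : ℂ) := by
  obtain ⟨hR, g1, g2, g3⟩ := (mem_FA h1).1 hz
  rw [hG.1 n i z hn hR, if_neg (fun h => hi h.1)]
  unfold Pos.wt
  rw [g1, g2, g3, pm_sq hs, one_mul]

include hG h1 in
theorem val_FS {n i : ℕ} (hn : n ∈ S) {s z : ℤ} (hs : s = 1 ∨ s = -1)
    (hz : z ∈ P.FS n i s) : Λ (ex z) = ((2 : ℂ) ^ lvl n i / P.cnt n i) * (s : ℂ) := by
  obtain ⟨hR, g1, g2, g3⟩ := (mem_FS h1).1 hz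
  rw [hG.1 n i z hn hR, if_neg]
  · unfold Pos.wt
    rw [g1, g2, g3, pm_sq hs, one_mul]
    push_cast; ring
  · rintro ⟨-, -, h⟩
    rw [g1, g3] at h
    rcases hs with rfl | rfl <;> norm_num at h

include hG h1 in
theorem val_FD {n i : ℕ} (hn : n ∈ S) {s z : ℤ}
    (hz : z ∈ P.FD n i s) : Λ (ex z) = ((2 : ℂ) ^ lvl n i / P.cnt n i) * (s : ℂ) := by
  obtain ⟨hR, g1, g3⟩ := (mem_FD h1).1 hz
  obtain ⟨e1, e2, -⟩ := (h1 d P).2.1 n i z hR
  rw [hG.1 n i z hn hR, if_neg (fun h => g1 h.2.1)]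
  unfold Pos.wt
  rw [pm_ne e1 e2 g1, g3]
  push_cast; ring

variable (h2 : T_GCN)

include hG h1 h2 in
theorem sum_FA {n i : ℕ} (hn : n ∈ S) (hV : Valid n i) (hi : i ≠ 1) {s : ℤ}
    (hs : s = 1 ∨ s = -1) :
    ∑ z ∈ P.FA n i s, Λ (ex z) = -((2 : ℂ) ^ lvl n i) * (s : ℂ) := by
  obtain ⟨c0, c1, -⟩ := h2 d P n i hV
  rw [Finset.sum_congr rfl fun z hz => val_FA hG h1 hn hi hs hz, Finset.sum_const,
    (c1 s hs).1, nsmul_eq_mul]
  have h0 : (P.cnt n i : ℂ) ≠ 0 := by exact_mod_cast c0.ne'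
  field_simp

include hG h1 h2 in
theorem sum_FS {n i : ℕ} (hn : n ∈ S) (hV : Valid n i) {s : ℤ}
    (hs : s = 1 ∨ s = -1) :
    ∑ z ∈ P.FS n i s, Λ (ex z) = (2 : ℂ) ^ lvl n i * (s : ℂ) := by
  obtain ⟨c0, c1, -⟩ := h2 d P n i hV
  rw [Finset.sum_congr rfl fun z hz => val_FS hG h1 hn hs hz, Finset.sum_const,
    (c1 s hs).2.1, nsmul_eq_mul]
  have h0 : (P.cnt n i : ℂ) ≠ 0 := by exact_mod_cast c0.ne'
  field_simp

include hG h1 h2 in
theorem sum_FD {n i : ℕ} (hn : n ∈ S) (hV : Valid n i) {s : ℤ}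
    (hs : s = 1 ∨ s = -1) :
    ∑ z ∈ P.FD n i s, Λ (ex z) = (2 : ℂ) ^ (lvl n i + 1) * (s : ℂ) := by
  obtain ⟨c0, c1, -⟩ := h2 d P n i hV
  rw [Finset.sum_congr rfl fun z hz => val_FD hG h1 hn hz, Finset.sum_const,
    (c1 s hs).2.2, nsmul_eq_mul]
  have h0 : (P.cnt n i : ℂ) ≠ 0 := by exact_mod_cast c0.ne'
  push_cast
  field_simp
  ring

include hG h1 h2 in
/-- the sum over the emitting points -/
theorem sum_EM (hT : IsTree S) {n i : ℕ} (hn : n ∈ S) (hV : Valid n i) (hi : i ≠ 1) {s : ℤ}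
    (hs : s = 1 ∨ s = -1) :
    ∑ z ∈ P.EM n i s, Λ (ex z) = (2 : ℂ) ^ lvl n i * (s : ℂ) := by
  rcases edge_cases n i hV hi with ⟨b, rfl, hb⟩ | ⟨b, n', rfl, rfl, hb⟩ | h
  · rw [EM_stay P n b s hb, sum_FS hG h1 h2 hn (valid_stay n b hb) hs, lvl_pow, lvl_pow]
  · have hn' : n' ∈ S := hT.2 n' b hb hn
    rw [EM_top P n' b s, sum_FD hG h1 h2 hn' (valid_top n' b hb) hs, lvl_pow, lvl_top]
  · rw [EM_next P n i s h, sum_FD hG h1 h2 hn (valid_pred n i hV h) hs, lvl_pred n i hV.1 h]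

end

theorem gsm (h1 : T_GSG) (h2 : T_GCN) (h3 : T_GDJ) (h4 : T_GSZ) (_h5 : T_PRE) (h6 : T_LNS) :
    Pool.Agent.H93.GT.T_GSM := by
  intro d P S hS Λ hG
  obtain ⟨_, dAE, dAM, dFE⟩ := h3 d P
  obtain ⟨_, _, _, _, _, hN⟩ := h4 d P
  constructor
  · rintro (⟨n, i, m, s⟩ | ⟨n, i, s⟩ | ⟨n, i⟩ | ⟨n, i⟩ | ⟨n, i, t, s⟩)
    · by_cases hv : n ∈ S ∧ Valid n i ∧ i ≠ 1 ∧ m < P.N n i
      swap
      · rw [cls_blk0 P S n i m s hv, Finset.sum_empty]
      rw [cls_blk P S n i m s hv]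
      obtain ⟨hn, hV, hi, hm⟩ := hv
      split_ifs with hm0
      · rw [Finset.sum_union (dAM n i m s (sg s) hV hi hm), sumAB hG h6 hn hV hi hm,
          sum_EM hG h1 h2 hS hn hV hi (sg_pm s)]
        ring
      · have hm' : m - 1 < P.N n i := by omega
        rw [Finset.sum_union (dAE n i m (m - 1) s s hV hi hm hm'), sumAB hG h6 hn hV hi hm,
          sumEB hG h6 hn hV hi hm']
        ring
    · by_cases hv : n ∈ S ∧ Valid n i ∧ i ≠ 1
      swap
      · rw [cls_sta0 P S n i s hv, Finset.sum_empty]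
      rw [cls_sta P S n i s hv]
      obtain ⟨hn, hV, hi⟩ := hv
      have hN0 := (hN n i hV hi).2.1
      have hm' : P.N n i - 1 < P.N n i := by omega
      rw [Finset.sum_union (dFE n i (P.N n i - 1) s (sg s) hV hi hm'),
        sum_FA hG h1 h2 hn hV hi (sg_pm s), sumEB hG h6 hn hV hi hm']
      ring
    · by_cases hv : n ∈ S ∧ Valid n i ∧ i ≠ 2 ^ lg i
      swap
      · rw [cls_lst0 P S n i hv, Finset.sum_empty]
      rw [cls_lst P S n i hv, Finset.sum_union ((h1 d P).2.2.1 n i).2.1,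
        sum_FS hG h1 h2 hv.1 hv.2.1 (Or.inl rfl), sum_FS hG h1 h2 hv.1 hv.2.1 (Or.inr rfl)]
      push_cast; ring
    · by_cases hv : n ∈ S ∧ Valid n i ∧ i + 1 = 2 ^ (lg i + 1) ∧ n + 2 ^ lg i ∉ S
      swap
      · rw [cls_ldr0 P S n i hv, Finset.sum_empty]
      rw [cls_ldr P S n i hv, Finset.sum_union ((h1 d P).2.2.1 n i).2.2,
        sum_FD hG h1 h2 hv.1 hv.2.1 (Or.inl rfl), sum_FD hG h1 h2 hv.1 hv.2.1 (Or.inr rfl)]
      push_cast; ring
    · by_cases hv : n ∈ S ∧ Valid n i ∧ i ≠ 1 ∧ P.g n i t ≠ 0 ∧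
        (∀ m, m < P.N n i → t ∉ P.T n i m)
      swap
      · rw [cls_par0 P S n i t s hv, Finset.sum_empty]
      rw [cls_par P S n i t s hv]
      obtain ⟨hn, hV, hi, hg, _⟩ := hv
      have hne : pp n i t 0 s ≠ pp n i t 1 s := by
        intro he
        have := (h6.2.2.2.2.2.2.2 n i t 0 s t 1 s (Or.inl rfl) (Or.inr rfl) he).2.1
        omega
      rw [Finset.sum_pair hne, hG.2.1 n i t 0 s hn hV hi hg (Or.inl rfl),
        hG.2.1 n i t 1 s hn hV hi hg (Or.inr rfl)]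
      push_cast
      ring
  · intro z hz
    by_cases hR : ∃ n i, n ∈ S ∧ P.Reg n i z
    · obtain ⟨n, i, hn, hR⟩ := hR
      have hV : Valid n i := hR.1
      obtain ⟨l1, l2⟩ := lg_bounds i hV.1
      obtain ⟨s, hs⟩ := (h1 d P).2.2.2.1 n i z hR
      rcases hs with hs | hs | hs
      · by_cases hi : i = 1
        · obtain ⟨-, g1, g2, g3⟩ := (mem_FA h1).1 hs
          rw [hG.1 n i z hn hR, if_pos ⟨hi, g1.trans g2.symm, g1.trans g3.symm⟩]
        · exfalso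
          apply hz (GC.sta n i s)
          rw [cls_sta P S n i s ⟨hn, hV, hi⟩]
          exact Finset.mem_union_left _ hs
      · exfalso
        by_cases hi : i = 2 ^ lg i
        · have hnb : n < 2 ^ lg i := hV.2
          have hV2 : Valid n (2 ^ (lg i + 1)) := valid_stay n (lg i + 1)
            (lt_trans hnb (Nat.pow_lt_pow_right (by norm_num) (Nat.lt_succ_self _)))
          have hi2 : 2 ^ (lg i + 1) ≠ 1 := by
            rw [pow_succ]
            omega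
          apply hz (GC.blk n (2 ^ (lg i + 1)) 0 s)
          rw [cls_blk P S _ _ _ s ⟨hn, hV2, hi2, (hN n _ hV2 hi2).2.1⟩, if_pos rfl,
            EM_stay P n (lg i) _ hnb, ← hi]
          exact Finset.mem_union_right _ hs
        · apply hz (GC.lst n i)
          rw [cls_lst P S n i ⟨hn, hV, hi⟩]
          rcases sg_pm s with h | h
          · rw [h] at hs
            exact Finset.mem_union_left _ hs
          · rw [h] at hs
            exact Finset.mem_union_right _ hs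
      · exfalso
        have hnb : n < 2 ^ lg i := hV.2
        by_cases hi : i + 1 = 2 ^ (lg i + 1)
        · by_cases hS' : n + 2 ^ lg i ∈ S
          · have hV2 : Valid (n + 2 ^ lg i) (2 ^ (lg i + 1)) := valid_stay _ (lg i + 1)
              (by rw [pow_succ]; omega)
            have hi2 : 2 ^ (lg i + 1) ≠ 1 := by
              rw [pow_succ]
              omega
            apply hz (GC.blk (n + 2 ^ lg i) (2 ^ (lg i + 1)) 0 s)
            rw [cls_blk P S _ _ _ s ⟨hS', hV2, hi2, (hN _ _ hV2 hi2).2.1⟩, if_pos rfl,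
              EM_top P n (lg i), show 2 ^ (lg i + 1) - 1 = i by omega]
            exact Finset.mem_union_right _ hs
          · apply hz (GC.ldr n i)
            rw [cls_ldr P S n i ⟨hn, hV, hi, hS'⟩]
            rcases sg_pm s with h | h
            · rw [h] at hs
              exact Finset.mem_union_left _ hs
            · rw [h] at hs
              exact Finset.mem_union_right _ hs
        · have hl : lg (i + 1) = lg i := lg_eq _ _ (by omega) (by omega)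
          have hV2 : Valid n (i + 1) := ⟨by omega, by rw [hl]; exact hnb⟩
          have hi2 : i + 1 ≠ 1 := by
            have := hV.1
            omega
          have hi3 : i + 1 ≠ 2 ^ lg (i + 1) := by
            rw [hl]
            omega
          apply hz (GC.blk n (i + 1) 0 s)
          rw [cls_blk P S _ _ _ s ⟨hn, hV2, hi2, (hN n _ hV2 hi2).2.1⟩, if_pos rfl,
            EM_next P n (i + 1) _ hi3, Nat.add_sub_cancel]
          exact Finset.mem_union_right _ hs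
    · by_cases hA : ∃ n i t κ s, n ∈ S ∧ Valid n i ∧ i ≠ 1 ∧ P.g n i t ≠ 0 ∧
        (κ = 0 ∨ κ = 1) ∧ z = pp n i t κ s
      · exfalso
        obtain ⟨n, i, t, κ, s, hn, hV, hi, hg, hκ, rfl⟩ := hA
        by_cases hT : ∃ m, m < P.N n i ∧ t ∈ P.T n i m
        · obtain ⟨m, hm, ht⟩ := hT
          rcases eq_iA_or_iE (P.g n i t) κ hκ with hk | hk
          · have hmem : pp n i t κ s ∈ P.AB n i m s := by
              unfold Pos.AB
              exact Finset.mem_image.mpr ⟨t, ht, by rw [hk]⟩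
            apply hz (GC.blk n i m s)
            rw [cls_blk P S _ _ _ s ⟨hn, hV, hi, hm⟩]
            exact Finset.mem_union_left _ hmem
          · have hmem : pp n i t κ s ∈ P.EB n i m s := by
              unfold Pos.EB
              exact Finset.mem_image.mpr ⟨t, ht, by rw [hk]⟩
            by_cases hlast : m + 1 < P.N n i
            · apply hz (GC.blk n i (m + 1) s)
              rw [cls_blk P S _ _ _ s ⟨hn, hV, hi, hlast⟩, if_neg (by omega),
                Nat.add_sub_cancel]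
              exact Finset.mem_union_right _ hmem
            · have hm3 : P.N n i - 1 = m := by omega
              apply hz (GC.sta n i s)
              rw [cls_sta P S n i s ⟨hn, hV, hi⟩, hm3]
              exact Finset.mem_union_right _ hmem
        · apply hz (GC.par n i t s)
          rw [cls_par P S n i t s ⟨hn, hV, hi, hg, fun m hm ht => hT ⟨m, hm, ht⟩⟩]
          rcases hκ with rfl | rfl
          · exact Finset.mem_insert_self _ _
          · exact Finset.mem_insert_of_mem (Finset.mem_singleton_self _)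
      · exact hG.2.2 z (fun n i hn hR' => hR ⟨n, i, hn, hR'⟩)
          (fun n i t κ s hn hV hi hg hκ he => hA ⟨n, i, t, κ, s, hn, hV, hi, hg, hκ, he⟩)

end Pool.Agent.H37.GT
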